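import Pool.Agent.MP_66cee2_co.S3.Spec

/-
Row Arc: an arc on the circle of intersection of two spheres.
-/

namespace Pool.Agent.MP_66cee2_co.S3

open Set Metric Module Pool.Agent.MP_66cee2_co.X
open scoped RealInnerProductSpace

namespace Arcx

theorem drop (M : Submodule ℝ (E 3)) (z : E 3) :
    finrank ℝ M ≤ finrank ℝ (M ⊓ (Submodule.span ℝ {z})ᗮ : Submodule ℝ (E 3)) + 1 := by
  have h1 := Submodule.finrank_sup_add_finrank_inf_eq M (Submodule.span ℝ {z})ᗮ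
  have h2 := Submodule.finrank_add_finrank_orthogonal (Submodule.span ℝ ({z} : Set (E 3)))
  have h3 := Submodule.finrank_le (M ⊔ (Submodule.span ℝ {z})ᗮ)
  have h4 : finrank ℝ (Submodule.span ℝ ({z} : Set (E 3))) ≤ 1 := by
    simpa using finrank_span_le_card (R := ℝ) ({z} : Set (E 3))
  omega

theorem ex_perp (u v : E 3) : ∃ w : E 3, ‖w‖ = 1 ∧ ⟪u, w⟫ = 0 ∧ ⟪v, w⟫ = 0 := by
  have h1 := drop ⊤ u
  have h2 := drop (⊤ ⊓ (Submodule.span ℝ {u})ᗮ) v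
  rw [finrank_top, finrank_euclideanSpace_fin] at h1
  obtain ⟨w, hw, w0⟩ := Submodule.exists_mem_ne_zero_of_ne_bot
    (p := (⊤ ⊓ (Submodule.span ℝ {u})ᗮ) ⊓ (Submodule.span ℝ {v})ᗮ) (fun h => by
      rw [h, finrank_bot] at h2
      omega)
  refine ⟨‖w‖⁻¹ • w, norm_smul_inv_norm w0, ?_, ?_⟩
  · rw [real_inner_smul_right, Submodule.mem_orthogonal_singleton_iff_inner_right.1 hw.1.2,
      mul_zero]
  · rw [real_inner_smul_right, Submodule.mem_orthogonal_singleton_iff_inner_right.1 hw.2,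
      mul_zero]

theorem frame {a e : E 3} (ha : ‖a‖ = 1) (he : ‖e‖ = 1) :
    ∃ (t t' : E 3) (s : ℝ), ‖t‖ = 1 ∧ ‖t'‖ = 1 ∧ ⟪a, t⟫ = 0 ∧ ⟪a, t'⟫ = 0 ∧ ⟪t, t'⟫ = 0 ∧
      0 ≤ s ∧ s ^ 2 = 1 - ⟪a, e⟫ ^ 2 ∧ ⟪t, e⟫ = s ∧ ⟪t', e⟫ = 0 := by
  have aa : ⟪a, a⟫ = 1 := by rw [real_inner_self_eq_norm_sq, ha, one_pow]
  obtain ⟨p, hp⟩ : ∃ p : E 3, p = e - ⟪a, e⟫ • a := ⟨_, rfl⟩
  have p1 : ⟪a, p⟫ = 0 := by rw [hp, inner_sub_right, real_inner_smul_right, aa]; ring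
  have p0 : e = p + ⟪a, e⟫ • a := by rw [hp, sub_add_cancel]
  have p2 : ‖p‖ ^ 2 = 1 - ⟪a, e⟫ ^ 2 := by
    rw [hp, norm_sub_sq_real, real_inner_smul_right, norm_smul, ha, he, mul_one,
      Real.norm_eq_abs, sq_abs, real_inner_comm a e]
    ring
  obtain ⟨t, t1, t2, t3⟩ : ∃ t : E 3, ‖t‖ = 1 ∧ ⟪a, t⟫ = 0 ∧ p = ‖p‖ • t := by
    by_cases h : p = 0
    · obtain ⟨t, t1, t2, -⟩ := ex_perp a a
      exact ⟨t, t1, t2, by rw [h, norm_zero, zero_smul]⟩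
    · refine ⟨‖p‖⁻¹ • p, norm_smul_inv_norm h, by rw [real_inner_smul_right, p1, mul_zero], ?_⟩
      rw [smul_smul, mul_inv_cancel₀ (norm_ne_zero_iff.2 h), one_smul]
  obtain ⟨t', u1, u2, u3⟩ := ex_perp a t
  obtain ⟨s, hs⟩ : ∃ s : ℝ, s = ‖p‖ := ⟨_, rfl⟩
  obtain ⟨c, hc⟩ : ∃ c : ℝ, c = ⟪a, e⟫ := ⟨_, rfl⟩
  rw [← hs] at t3 p2
  rw [← hc] at p0 p2 ⊢
  refine ⟨t, t', s, t1, u1, t2, u2, u3, hs ▸ norm_nonneg _, p2, ?_, ?_⟩
  · rw [p0, t3, inner_add_right, real_inner_smul_right, real_inner_smul_right,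
      real_inner_self_eq_norm_sq, t1, real_inner_comm a t, t2]
    ring
  · rw [p0, t3, inner_add_right, real_inner_smul_right, real_inner_smul_right,
      real_inner_comm t t', real_inner_comm a t', u2, u3]
    ring

theorem span3 {a t t' e : E 3} (ha : ‖a‖ = 1) (ht : ‖t‖ = 1) (ht' : ‖t'‖ = 1) (he : ‖e‖ = 1)
    (h1 : ⟪a, t⟫ = 0) (h2 : ⟪a, t'⟫ = 0) (h3 : ⟪t, t'⟫ = 0) (h4 : ⟪a, e⟫ = 0) (h5 : ⟪t, e⟫ = 0)
    (h6 : ⟪t', e⟫ = 0) : False := by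
  have g1 := (real_inner_comm a t).trans h1
  have g2 := (real_inner_comm a t').trans h2
  have g3 := (real_inner_comm t t').trans h3
  have g4 := (real_inner_comm a e).trans h4
  have g5 := (real_inner_comm t e).trans h5
  have g6 := (real_inner_comm t' e).trans h6
  have ho : Orthonormal ℝ ![a, t, t', e] := by
    refine ⟨fun i => ?_, fun i j hij => ?_⟩
    · fin_cases i <;> assumption
    · fin_cases i <;> fin_cases j <;> first | exact absurd rfl hij | assumption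
  have := ho.linearIndependent.fintype_card_le_finrank
  rw [finrank_euclideanSpace_fin, Fintype.card_fin] at this
  omega

theorem nsq {a t t' : E 3} (ha : ‖a‖ = 1) (ht : ‖t‖ = 1) (ht' : ‖t'‖ = 1)
    (h1 : ⟪a, t⟫ = 0) (h2 : ⟪a, t'⟫ = 0) (h3 : ⟪t, t'⟫ = 0) (x y z : ℝ) :
    ‖x • a + y • t + z • t'‖ ^ 2 = x ^ 2 + y ^ 2 + z ^ 2 := by
  rw [norm_add_sq_real, norm_add_sq_real, inner_add_left]
  simp only [real_inner_smul_left, real_inner_smul_right, h1, h2, h3, norm_smul, ha, ht, ht',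
    Real.norm_eq_abs, mul_one, sq_abs]
  ring

theorem three {A B C x₁ y₁ x₂ y₂ x₃ y₃ : ℝ} (h1 : A + B * x₁ + C * y₁ = 0)
    (h2 : A + B * x₂ + C * y₂ = 0) (h3 : A + B * x₃ + C * y₃ = 0) (a1 : x₁ < x₂) (a2 : x₃ < x₂)
    (a3 : y₁ < y₂) (a4 : y₂ < y₃) : A = 0 ∧ B = 0 ∧ C = 0 := by
  have e1 : C * ((y₂ - y₁) * (x₂ - x₃) + (y₃ - y₂) * (x₂ - x₁)) = 0 := by
    linear_combination (x₂ - x₃) * (h2 - h1) + (x₂ - x₁) * (h3 - h2)
  have e2 : 0 < (y₂ - y₁) * (x₂ - x₃) + (y₃ - y₂) * (x₂ - x₁) :=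
    add_pos (mul_pos (sub_pos.2 a3) (sub_pos.2 a2)) (mul_pos (sub_pos.2 a4) (sub_pos.2 a1))
  have hC : C = 0 := (mul_eq_zero.1 e1).resolve_right e2.ne'
  have e3 : B * (x₂ - x₁) = 0 := by linear_combination h2 - h1 - (y₂ - y₁) * hC
  have hB : B = 0 := (mul_eq_zero.1 e3).resolve_right (sub_pos.2 a1).ne'
  exact ⟨by linear_combination h1 - x₁ * hB - y₁ * hC, hB, hC⟩

theorem partner {R x y : ℝ} (r1 : 73 / 100 ≤ R ^ 2) (h : x ^ 2 + y ^ 2 = 1) (hx : -9 / 20 ≤ x) :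
    ∃ x' y' : ℝ, x' ^ 2 + y' ^ 2 = 1 ∧ -9 / 20 ≤ x' ∧
      (R * x' - R * x) ^ 2 + (R * y' - R * y) ^ 2 = 1 := by
  have r0 : 0 < R ^ 2 := by linarith
  obtain ⟨μ, hμ⟩ : ∃ μ : ℝ, μ = 1 / (2 * R ^ 2) := ⟨_, rfl⟩
  have m0 : 0 < μ := by rw [hμ]; positivity
  have m1 : μ * R ^ 2 = 1 / 2 := by
    rw [hμ, div_mul_eq_mul_div, one_mul, div_eq_iff (by linarith)]
    ring
  have m2 : μ < 1 := by nlinarith
  obtain ⟨s, s0, s2⟩ : ∃ s : ℝ, 0 ≤ s * y ∧ s ^ 2 = 1 - (1 - μ) ^ 2 := by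
    have q := Real.sq_sqrt (show 0 ≤ 1 - (1 - μ) ^ 2 by nlinarith)
    have q0 := Real.sqrt_nonneg (1 - (1 - μ) ^ 2)
    rcases le_total 0 y with hy | hy
    · exact ⟨_, mul_nonneg q0 hy, q⟩
    · exact ⟨-√(1 - (1 - μ) ^ 2), by nlinarith, by rw [neg_sq, q]⟩
  refine ⟨(1 - μ) * x + s * y, (1 - μ) * y - s * x, ?_, by nlinarith, ?_⟩
  · linear_combination ((1 - μ) ^ 2 + s ^ 2) * h + s2
  · linear_combination R ^ 2 * (μ ^ 2 + s ^ 2) * h + R ^ 2 * s2 + 2 * m1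

theorem big {x : ℝ} (h : x ∈ Icc (-9 / 20 : ℝ) (3 / 4)) :
    3 / 5 < √(1 - x ^ 2) ∧ x ^ 2 + √(1 - x ^ 2) ^ 2 = 1 := by
  have h1 : 7 / 16 ≤ 1 - x ^ 2 := by nlinarith [h.1, h.2]
  exact ⟨Real.lt_sqrt_of_sq_lt (by linarith), by rw [Real.sq_sqrt (by linarith)]; ring⟩

theorem mid {y : ℝ} (h : y ∈ Icc (-3 / 5 : ℝ) (3 / 5)) :
    4 / 5 ≤ √(1 - y ^ 2) ∧ √(1 - y ^ 2) ^ 2 + y ^ 2 = 1 := by
  have h1 : 16 / 25 ≤ 1 - y ^ 2 := by nlinarith [h.1, h.2]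
  exact ⟨Real.le_sqrt_of_sq_le (by linarith), by rw [Real.sq_sqrt (by linarith)]; ring⟩

theorem nums {D ρ r c s : ℝ} (d1 : 99 / 100 ≤ D) (d2 : D ≤ 101 / 100) (p1 : 99 / 100 ≤ ρ ^ 2)
    (p2 : ρ ^ 2 ≤ 1) (r1 : 999 / 1000 ≤ r ^ 2) (r2 : r ^ 2 ≤ 1) (c1 : 68 / 100 ≤ D * c)
    (s0 : 0 ≤ s) (s1 : s ^ 2 = 1 - c ^ 2) :
    ∃ l R : ℝ, 0 < R ∧ 73 / 100 ≤ R ^ 2 ∧ l ^ 2 + R ^ 2 = ρ ^ 2 ∧ (l - D) ^ 2 + R ^ 2 = r ^ 2 ∧
      l - D ≠ 0 ∧ ∀ x : ℝ, -9 / 20 ≤ x → 0 < l * c + R * x * s := by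
  have d0 : 0 < D := by linarith
  obtain ⟨l, hl⟩ : ∃ l : ℝ, l = (ρ ^ 2 - r ^ 2 + D ^ 2) / (2 * D) := ⟨_, rfl⟩
  have l0 : 2 * D * l = ρ ^ 2 - r ^ 2 + D ^ 2 := by rw [hl]; field_simp
  have l1 : 489 / 1000 ≤ l := by
    rw [hl, le_div_iff₀ (by linarith)]
    linarith [mul_nonneg (sub_nonneg.2 d1) d0.le]
  have l2 : l ≤ 506 / 1000 := by
    rw [hl, div_le_iff₀ (by linarith)]
    linarith [mul_nonneg (sub_nonneg.2 d2) d0.le]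
  have l3 : l ^ 2 ≤ (506 / 1000) ^ 2 := pow_le_pow_left₀ (by linarith) l2 2
  have l4 : (489 / 1000) ^ 2 ≤ l ^ 2 := pow_le_pow_left₀ (by norm_num) l1 2
  have q := Real.sq_sqrt (show 0 ≤ ρ ^ 2 - l ^ 2 by linarith)
  have q0 : 0 < √(ρ ^ 2 - l ^ 2) := Real.sqrt_pos.2 (by linarith)
  obtain ⟨R, hR⟩ : ∃ R : ℝ, R = √(ρ ^ 2 - l ^ 2) := ⟨_, rfl⟩
  rw [← hR] at q q0
  have c2 : 67 / 100 ≤ c := by
    by_contra hc
    have := mul_lt_mul_of_pos_left (not_le.1 hc) d0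
    linarith
  have c3 : (67 / 100) ^ 2 ≤ c ^ 2 := pow_le_pow_left₀ (by norm_num) c2 2
  have s2 : s ≤ 3 / 4 := le_of_sq_le_sq (by linarith) (by norm_num)
  have R1 : R ≤ 88 / 100 := le_of_sq_le_sq (by linarith) (by norm_num)
  refine ⟨l, R, q0, by linarith, by linarith, by linear_combination q - l0,
    (sub_neg.2 (by linarith)).ne, fun x hx => ?_⟩
  have e1 : 489 / 1000 * (67 / 100) ≤ l * c := mul_le_mul l1 c2 (by norm_num) (by linarith)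
  have e2 : R * s ≤ 88 / 100 * (3 / 4) := mul_le_mul R1 s2 s0 (by norm_num)
  have e3 : 0 ≤ R * s * (x + 9 / 20) := mul_nonneg (mul_nonneg q0.le s0) (by linarith)
  linarith

end Arcx

open Arcx in
theorem sArc (h : STurn) : SArc := by
  intro m m' e e' ρ r U V hU he he' ρ0 p1 p2 r0 r1 r2 d1 d2 c1 inU inV
  have d0 : m' - m ≠ 0 := norm_pos_iff.1 (by linarith)
  obtain ⟨D, hD⟩ : ∃ D : ℝ, D = ‖m' - m‖ := ⟨_, rfl⟩
  obtain ⟨a, ha, hm⟩ : ∃ a : E 3, ‖a‖ = 1 ∧ m' - m = D • a :=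
    ⟨‖m' - m‖⁻¹ • (m' - m), norm_smul_inv_norm d0, by
      rw [smul_smul, hD, mul_inv_cancel₀ (norm_ne_zero_iff.2 d0), one_smul]⟩
  rw [← hD] at d1 d2
  rw [hm, real_inner_smul_left] at c1
  obtain ⟨t, t', s, t1, t2, t3, t4, t5, s0, s1, s2, s3⟩ := frame ha he
  obtain ⟨l, R, R0, R1, R2, R3, R4, R5⟩ := nums d1 d2 p1 p2 r1 r2 c1 s0 s1
  have N := nsq ha t1 t2 t3 t4 t5
  obtain ⟨P, hP⟩ : ∃ P : ℝ → ℝ → E 3, P = fun x y => m + (l • a + (R * x) • t + (R * y) • t') :=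
    ⟨_, rfl⟩
  have f1 : ∀ x y, P x y - m = l • a + (R * x) • t + (R * y) • t' := fun x y => by
    rw [hP, add_sub_cancel_left]
  have f2 : ∀ x y, P x y - m' = (l - D) • a + (R * x) • t + (R * y) • t' := fun x y => by
    rw [show P x y - m' = P x y - m - (m' - m) by abel, f1, hm]
    module
  have f3 : ∀ x y x' y', ‖P x' y' - P x y‖ ^ 2 = (R * x' - R * x) ^ 2 + (R * y' - R * y) ^ 2 := by
    intro x y x' y'
    rw [show P x' y' - P x y = (0 : ℝ) • a + (R * x' - R * x) • t + (R * y' - R * y) • t' by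
      rw [show P x' y' - P x y = P x' y' - m - (P x y - m) by abel, f1, f1]
      module, N]
    ring
  have g1 : ∀ x y, x ^ 2 + y ^ 2 = 1 → -9 / 20 ≤ x → P x y ∈ U := fun x y hxy hx => by
    refine inU _ ((pow_left_inj₀ (norm_nonneg _) ρ0.le two_ne_zero).1 ?_) ?_
    · rw [f1, N]
      linear_combination R2 + R ^ 2 * hxy
    · rw [f1, inner_add_left, inner_add_left, real_inner_smul_left, real_inner_smul_left,
        real_inner_smul_left, s2, s3, mul_zero, add_zero]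
      exact R5 x hx
  have g2 : ∀ x y, x ^ 2 + y ^ 2 = 1 → ‖P x y - m'‖ = r := fun x y hxy => by
    refine (pow_left_inj₀ (norm_nonneg _) r0.le two_ne_zero).1 ?_
    rw [f2, N]
    linear_combination R3 + R ^ 2 * hxy
  have g3 : ∀ x y, ⟪P x y - m', e'⟫ =
      (l - D) * ⟪a, e'⟫ + R * ⟪t, e'⟫ * x + R * ⟪t', e'⟫ * y := fun x y => by
    rw [f2, inner_add_left, inner_add_left, real_inner_smul_left, real_inner_smul_left,
      real_inner_smul_left]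
    ring
  have key : ∀ (α β : ℝ) (x y : ℝ → ℝ), α ≤ β → Continuous x → Continuous y →
      (∀ τ ∈ Icc α β, x τ ^ 2 + y τ ^ 2 = 1 ∧ -9 / 20 ≤ x τ) →
      36 / 25 ≤ (x β - x α) ^ 2 + (y β - y α) ^ 2 → ¬ Lst (U ∩ V) →
      ∃ τ ∈ Icc α β, ⟪P (x τ) (y τ) - m', e'⟫ = 0 := by
    intro α β x y hab cx cy hc hch hn
    by_contra hz
    have hz' : ∀ τ ∈ Icc α β, ⟪P (x τ) (y τ) - m', e'⟫ ≠ 0 := fun τ hτ h0 => hz ⟨τ, hτ, h0⟩
    have cP : Continuous fun τ => P (x τ) (y τ) := by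
      rw [hP]
      fun_prop
    refine hn ⟨(fun τ => P (x τ) (y τ)) '' Icc α β, isPreconnected_Icc.image _ cP.continuousOn,
      ?_, ?_, ?_⟩
    · rintro _ ⟨τ, hτ, rfl⟩
      exact ⟨g1 _ _ (hc τ hτ).1 (hc τ hτ).2, inV _ (g2 _ _ (hc τ hτ).1) (hz' τ hτ)⟩
    · have cN : ContinuousOn (fun τ => ‖P (x τ) (y τ) - P (x α) (y α)‖) (Icc α β) :=
        (cP.sub continuous_const).norm.continuousOn
      obtain ⟨τ, hτ, h1⟩ := intermediate_value_Icc hab cN (show (1 : ℝ) ∈ Icc _ _ from ⟨by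
        rw [sub_self, norm_zero]
        exact zero_le_one, by
        refine le_of_sq_le_sq ?_ (norm_nonneg _)
        rw [f3]
        have := mul_le_mul R1 hch (by norm_num) (sq_nonneg R)
        linarith⟩)
      exact ⟨_, ⟨τ, hτ, rfl⟩, _, ⟨α, left_mem_Icc.2 hab, rfl⟩, h1⟩
    · rintro _ ⟨τ, hτ, rfl⟩
      obtain ⟨x', y', k1, k2, k3⟩ := partner R1 (hc τ hτ).1 (hc τ hτ).2
      obtain ⟨z, z1, z2, z3, z4⟩ := h m' e' (P (x τ) (y τ)) (P x' y') r U hU (g1 _ _ k1 k2) r0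
        (by linarith) (g2 _ _ k1) (g2 _ _ (hc τ hτ).1)
        ((pow_eq_one_iff_of_nonneg (norm_nonneg _) two_ne_zero).1 ((f3 _ _ _ _).trans k3))
        (hz' τ hτ)
      exact ⟨z - P (x τ) (y τ), z3, by rw [add_sub_cancel]; exact ⟨z1, inV z z2 z4⟩⟩
  by_contra hn
  obtain ⟨x₁, a1, b1⟩ := key (-9 / 20) (3 / 4) (fun τ => τ) (fun τ => -√(1 - τ ^ 2))
    (by norm_num) (by fun_prop) (by fun_prop)
    (fun τ hτ => ⟨by rw [neg_sq]; exact (big hτ).2, hτ.1⟩)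
    (le_add_of_le_of_nonneg (by norm_num) (sq_nonneg _)) hn
  obtain ⟨y₂, a2, b2⟩ := key (-3 / 5) (3 / 5) (fun τ => √(1 - τ ^ 2)) (fun τ => τ)
    (by norm_num) (by fun_prop) (by fun_prop)
    (fun τ hτ => ⟨(mid hτ).2, by linarith [(mid hτ).1]⟩)
    (le_add_of_nonneg_of_le (sq_nonneg _) (by norm_num)) hn
  obtain ⟨x₃, a3, b3⟩ := key (-9 / 20) (3 / 4) (fun τ => τ) (fun τ => √(1 - τ ^ 2))
    (by norm_num) (by fun_prop) (by fun_prop) (fun τ hτ => ⟨(big hτ).2, hτ.1⟩)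
    (le_add_of_le_of_nonneg (by norm_num) (sq_nonneg _)) hn
  rw [g3] at b1 b2 b3
  obtain ⟨hA, hB, hC⟩ := three b1 b2 b3 (by linarith [a1.2, (mid a2).1])
    (by linarith [a3.2, (mid a2).1]) (by linarith [a2.1, (big a1).1])
    (by linarith [a2.2, (big a3).1])
  exact span3 ha t1 t2 he' t3 t4 t5 ((mul_eq_zero.1 hA).resolve_left R4)
    ((mul_eq_zero.1 hB).resolve_left R0.ne') ((mul_eq_zero.1 hC).resolve_left R0.ne')

end Pool.Agent.MP_66cee2_co.S3
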