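import Pool.Agent.MP_66cee2_co.S3.Spec

/-
Row Cap: the parametrisation of the thick cap.
-/

namespace Pool.Agent.MP_66cee2_co.S3

open Set Metric Module Pool.Agent.MP_66cee2_co.X Pool.Agent.MP_66cee2_co.D
open Pool.Agent.MP_66cee2_co.TR Pool.Agent.MP_66cee2_co.Q
open scoped RealInnerProductSpace

theorem sCap : SCap := by
  intro m e ρ η e1 ρ0 ρ1 η0
  obtain ⟨F, hF⟩ : ∃ F : Submodule ℝ (E 3), F = (ℝ ∙ e)ᗮ := ⟨_, rfl⟩
  have FM : ∀ x : F, ⟪(x : E 3), e⟫ = 0 := fun x => by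
    have h : (x : E 3) ∈ (ℝ ∙ e)ᗮ := hF ▸ x.2
    exact Submodule.mem_orthogonal_singleton_iff_inner_left.1 h
  have FM' : ∀ x : F, ⟪e, (x : E 3)⟫ = 0 := fun x => by
    rw [real_inner_comm]
    exact FM x
  have ee : ⟪e, e⟫ = 1 := by
    rw [real_inner_self_eq_norm_sq, e1]
    norm_num
  have Fd : 2 ≤ finrank ℝ F := by
    have e0 : e ≠ 0 := by
      rintro rfl
      simp at e1
    have f1 := Submodule.finrank_add_finrank_orthogonal (ℝ ∙ e)
    rw [finrank_span_singleton e0, finrank_euclideanSpace_fin] at f1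
    rw [hF]
    omega
  let ω : F × ℝ → E 3 := fun p =>
    (5 / 7 : ℝ) • (p.1 : E 3) + √(1 - 25 / 49 * ‖p.1‖ ^ 2) • e
  let φ : F × ℝ → E 3 := fun p => m + ((1 + η * p.2) * ρ) • ω p
  have φc : Continuous φ := by fun_prop
  have h0 : ∀ p ∈ Cyl F, 24 / 49 ≤ 1 - 25 / 49 * ‖p.1‖ ^ 2 := fun p hp => by
    nlinarith [hp.1, norm_nonneg p.1]
  have ωn : ∀ p ∈ Cyl F, ‖ω p‖ = 1 := fun p hp => by
    have h3 : ‖ω p‖ ^ 2 = 1 := by
      simp only [ω]
      rw [norm_add_sq_real, inner_smul_right, real_inner_smul_left, FM p.1, norm_smul, norm_smul,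
        e1, Real.norm_eq_abs, Real.norm_eq_abs, mul_one, mul_pow, sq_abs, sq_abs,
        Real.sq_sqrt (by linarith [h0 p hp]), Submodule.coe_norm]
      ring
    nlinarith [norm_nonneg (ω p)]
  have a1 : ∀ p ∈ Cyl F, 1 ≤ 1 + η * p.2 := fun p hp => by nlinarith [hp.2.1]
  have φn : ∀ p ∈ Cyl F, ‖φ p - m‖ = (1 + η * p.2) * ρ := fun p hp => by
    simp only [φ]
    rw [add_sub_cancel_left, norm_smul, ωn p hp, Real.norm_eq_abs, mul_one,
      abs_of_pos (mul_pos (by linarith [a1 p hp]) ρ0)]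
  refine ⟨F, φ, Fd, φc, fun p hp => ⟨?_, ?_, ?_⟩, fun p hp q hq np nq h3 => ?_,
    fun p hp q hq p0 q1 h => ?_⟩
  · rw [φn p hp]
    exact le_mul_of_one_le_left ρ0.le (a1 p hp)
  · rw [φn p hp]
    exact mul_le_mul_of_nonneg_right (by nlinarith [hp.2.2]) ρ0.le
  · rw [φn p hp]
    have h5 : ⟪φ p - m, e⟫ = (1 + η * p.2) * ρ * √(1 - 25 / 49 * ‖p.1‖ ^ 2) := by
      simp only [φ, ω, add_sub_cancel_left, real_inner_smul_left, inner_add_left, FM, ee]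
      ring
    have h6 : (69 / 100 : ℝ) ≤ √(1 - 25 / 49 * ‖p.1‖ ^ 2) :=
      Real.le_sqrt_of_sq_le (by linarith [h0 p hp])
    rw [h5, mul_comm]
    exact mul_le_mul_of_nonneg_left h6 (mul_pos (by linarith [a1 p hp]) ρ0).le
  · have h4 := norm_sub_sq_real (φ p - m) (φ q - m)
    rw [sub_sub_sub_cancel_right, φn p hp, φn q hq] at h4
    have hs : √(1 - 25 / 49 * (1 : ℝ) ^ 2) * √(1 - 25 / 49 * (1 : ℝ) ^ 2) = 24 / 49 := by
      rw [Real.mul_self_sqrt (by norm_num)]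
      norm_num
    have h5 : ⟪φ p - m, φ q - m⟫ =
        (1 + η * p.2) * (1 + η * q.2) * ρ ^ 2 * (25 / 49 * ⟪p.1, q.1⟫ + 24 / 49) := by
      simp only [φ, ω, np, nq, add_sub_cancel_left, real_inner_smul_left, real_inner_smul_right,
        inner_add_left, inner_add_right, FM, FM', ee, Submodule.coe_inner]
      linear_combination (1 + η * p.2) * (1 + η * q.2) * ρ ^ 2 * hs
    have a3 : ‖φ p - φ q‖ ^ 2 ≤ 1 := by nlinarith [norm_nonneg (φ p - φ q)]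
    by_contra hn
    push Not at hn
    have b1 := a1 p hp
    have b2 := a1 q hq
    obtain ⟨A, hA⟩ : ∃ A, A = 1 + η * p.2 := ⟨_, rfl⟩
    obtain ⟨B, hB⟩ : ∃ B, B = 1 + η * q.2 := ⟨_, rfl⟩
    rw [← hA, ← hB] at h4 h5
    rw [← hA] at b1
    rw [← hB] at b2
    have c1 : 0 ≤ A * B * ρ ^ 2 := by positivity
    have c2 : A * B * ρ ^ 2 * ⟪p.1, q.1⟫ ≤ 0 := mul_nonpos_of_nonneg_of_nonpos c1 hn
    have c3 : 50 / 49 ≤ A ^ 2 + B ^ 2 - 48 / 49 * (A * B) := by nlinarith [sq_nonneg (A - B)]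
    have c4 : 99 / 100 * (50 / 49) ≤ ρ ^ 2 * (A ^ 2 + B ^ 2 - 48 / 49 * (A * B)) :=
      mul_le_mul ρ1 c3 (by norm_num) (by positivity)
    nlinarith
  · have b1 := φn p hp
    have b2 := φn q hq
    rw [h, p0, b2, q1] at b1
    nlinarith

end Pool.Agent.MP_66cee2_co.S3
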