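import Pool.Agent.MP_66cee2_co.S3.Spec

/-
Row HemL: a half circle has an arc with a unit pair whose points have unit neighbours.
-/

namespace Pool.Agent.MP_66cee2_co.S3

open Set Metric Module Pool.Agent.MP_66cee2_co.X Pool.Agent.MP_66cee2_co.D
open Pool.Agent.MP_66cee2_co.TR Pool.Agent.MP_66cee2_co.Q
open scoped RealInnerProductSpace

namespace HemLx

theorem unit_perp {d : ℕ} (M : Submodule ℝ (E d)) (hM : 2 ≤ finrank ℝ M) (v : E d) :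
    ∃ w ∈ M, ‖w‖ = 1 ∧ ⟪w, v⟫ = 0 := by
  have h1 : finrank ℝ ℝ < finrank ℝ M := by
    rw [Module.finrank_self]
    omega
  have h2 := LinearMap.ker_ne_bot_of_finrank_lt
    (f := ((innerₛₗ ℝ v : E d →ₗ[ℝ] ℝ)).comp M.subtype) h1
  obtain ⟨w, hw, hw0⟩ := (Submodule.ne_bot_iff _).1 h2
  have h3 : ⟪v, (w : E d)⟫ = 0 := hw
  have h4 : (w : E d) ≠ 0 := fun h => hw0 (Subtype.ext h)
  have h5 : ‖(w : E d)‖ ≠ 0 := norm_ne_zero_iff.2 h4
  refine ⟨‖(w : E d)‖⁻¹ • (w : E d), M.smul_mem _ w.2, ?_, ?_⟩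
  · rw [norm_smul, norm_inv, norm_norm, inv_mul_cancel₀ h5]
  · rw [real_inner_smul_left, real_inner_comm, h3, mul_zero]

theorem norm_comb {d : ℕ} (f e : E d) (hf : ‖f‖ = 1) (he : ‖e‖ = 1) (hfe : ⟪e, f⟫ = 0)
    (a b : ℝ) : ‖a • f + b • e‖ ^ 2 = a ^ 2 + b ^ 2 := by
  rw [norm_add_sq_real, real_inner_smul_left, real_inner_smul_right, real_inner_comm, hfe,
    norm_smul, norm_smul, hf, he, Real.norm_eq_abs, Real.norm_eq_abs, mul_one, mul_one, sq_abs,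
    sq_abs]
  ring

end HemLx

open HemLx in
theorem sHemL : SHemL := by
  rintro d B ⟨o, u, M, ρ, hM, ρ0, ρ1, hB⟩
  obtain ⟨f, fM, f1, fu⟩ := unit_perp M hM u
  obtain ⟨e, eM, e1, ef, eu⟩ : ∃ e ∈ M, ‖e‖ = 1 ∧ ⟪e, f⟫ = 0 ∧ 0 ≤ ⟪e, u⟫ := by
    obtain ⟨e, eM, e1, ef⟩ := unit_perp M hM f
    rcases le_total 0 ⟪e, u⟫ with h | h
    · exact ⟨e, eM, e1, ef, h⟩
    · refine ⟨-e, M.neg_mem eM, by rw [norm_neg, e1], by rw [inner_neg_left, ef, neg_zero], ?_⟩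
      rw [inner_neg_left]
      linarith
  set w : ℝ → E d := fun ψ => (ρ * Real.cos ψ) • f + (ρ * Real.sin ψ) • e with hw
  have hin : ∀ ψ, 0 ≤ ψ → ψ ≤ Real.pi → o + w ψ ∈ B := by
    intro ψ h0 h1
    refine hB _ (M.add_mem (M.smul_mem _ fM) (M.smul_mem _ eM)) ?_ ?_
    · have h2 : ‖w ψ‖ ^ 2 = ρ ^ 2 := by
        rw [hw, norm_comb f e f1 e1 ef]
        linear_combination ρ ^ 2 * Real.sin_sq_add_cos_sq ψ
      exact (pow_left_inj₀ (norm_nonneg _) ρ0.le two_ne_zero).1 h2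
    · show 0 ≤ ⟪(ρ * Real.cos ψ) • f + (ρ * Real.sin ψ) • e, u⟫
      rw [inner_add_left, real_inner_smul_left, real_inner_smul_left, fu, mul_zero, zero_add]
      exact mul_nonneg (mul_nonneg ρ0.le (Real.sin_nonneg_of_nonneg_of_le_pi h0 h1)) eu
  have r0 : 0 < 2 * ρ ^ 2 := by positivity
  have c0 : 0 ≤ 1 - 1 / (2 * ρ ^ 2) := by
    rw [sub_nonneg, div_le_one r0]
    linarith
  have c1 : 1 - 1 / (2 * ρ ^ 2) ≤ 1 := by
    have : 0 < 1 / (2 * ρ ^ 2) := by positivity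
    linarith
  set θ := Real.arccos (1 - 1 / (2 * ρ ^ 2)) with hθ
  have θ0 : 0 ≤ θ := Real.arccos_nonneg _
  have θ1 : θ ≤ Real.pi / 2 := Real.arccos_le_pi_div_two.2 c0
  have θ2 : 2 * ρ ^ 2 * (1 - Real.cos θ) = 1 := by
    rw [hθ, Real.cos_arccos (by linarith) c1]
    field_simp
    ring
  have hu : ∀ ψ, ‖w (ψ + θ) - w ψ‖ = 1 := by
    intro ψ
    have h1 : w (ψ + θ) - w ψ = (ρ * Real.cos (ψ + θ) - ρ * Real.cos ψ) • f +
        (ρ * Real.sin (ψ + θ) - ρ * Real.sin ψ) • e := by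
      simp only [hw]
      module
    have h2 : ‖w (ψ + θ) - w ψ‖ ^ 2 = 1 ^ 2 := by
      rw [h1, norm_comb f e f1 e1 ef, Real.cos_add, Real.sin_add]
      linear_combination θ2 + ρ ^ 2 * ((Real.cos θ - 1) ^ 2 + Real.sin θ ^ 2) *
        Real.sin_sq_add_cos_sq ψ + ρ ^ 2 * Real.sin_sq_add_cos_sq θ
    exact (pow_left_inj₀ (norm_nonneg _) zero_le_one two_ne_zero).1 h2
  have hp := Real.pi_pos
  have hc : Continuous fun ψ => o + w ψ := by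
    simp only [hw]
    fun_prop
  refine ⟨(fun ψ => o + w ψ) '' Icc 0 (Real.pi / 2), isPreconnected_Icc.image _ hc.continuousOn,
    ?_, ⟨o + w (0 + θ), ⟨0 + θ, ⟨by linarith, by linarith⟩, rfl⟩, o + w 0,
      ⟨0, ⟨le_rfl, by linarith⟩, rfl⟩, ?_⟩, ?_⟩
  · rintro _ ⟨ψ, ⟨h0, h1⟩, rfl⟩
    exact hin ψ h0 (by linarith)
  · rw [add_sub_add_left_eq_sub]
    exact hu 0
  · rintro _ ⟨ψ, ⟨h0, h1⟩, rfl⟩
    refine ⟨w (ψ + θ) - w ψ, hu ψ, ?_⟩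
    have h2 : o + w ψ + (w (ψ + θ) - w ψ) = o + w (ψ + θ) := by abel
    show o + w ψ + (w (ψ + θ) - w ψ) ∈ B
    rw [h2]
    exact hin _ (by linarith) (by linarith)

end Pool.Agent.MP_66cee2_co.S3
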