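import Pool.Agent.MP_66cee2_co.S3.Spec
import Pool.Agent.MP_66cee2_co.H59.LA

/-
Row Last: a label graph of degree at most one is bipartite.
-/

namespace Pool.Agent.MP_66cee2_co.S3

open Set Metric Module Pool.Agent.MP_66cee2_co.X Pool.Agent.MP_66cee2_co.D
open Pool.Agent.MP_66cee2_co.TR

theorem sLast (h : SAlg) : SLast := by
  classical
  intro d n k O B W hd hO hB hL hS ⟨G, g1, g2, g3, g4⟩
  by_contra hn
  have key : ∀ v q q' : Ix n → ℝ, v ∈ W → q ∈ W → q' ∈ W → 0 < lz v v → 0 < lz q q →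
      0 < lz q' q' → lz v q = 0 → lz v q' = 0 → Eqv W q' q := by
    intro v q q' hv hq hq' pv pq pq' e1 e2
    by_contra he
    have := h.2 n _ _ v (h.1 n k W q q' hS hq hq' pq pq' he) ⟨hv, e1, e2⟩ pv
    omega
  let cl : (Ix n → ℝ) → Set (Ix n → ℝ) := fun v => {w | w ∈ W ∧ lz w v = 0}
  have hcl : ∀ q q', Eqv W q' q → cl q' = cl q := by
    rintro q q' ⟨c, hc, he⟩
    ext w
    exact ⟨fun hw => ⟨hw.1, (mul_eq_zero.1 ((he w hw.1).symm.trans hw.2)).resolve_left hc⟩,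
      fun hw => ⟨hw.1, by rw [he w hw.1, hw.2, mul_zero]⟩⟩
  obtain ⟨lo, -⟩ := exists_wellFoundedLT (Set (Ix n → ℝ))
  let lt : Set (Ix n → ℝ) → Set (Ix n → ℝ) → Prop := lo.lt
  have tri : ∀ a b, a ≠ b → lt a b ∨ lt b a := fun a b hab =>
    @lt_or_gt_of_ne _ lo a b hab
  have asy : ∀ a b, lt a b → ¬ lt b a := fun a b hab => @lt_asymm _ lo.toPreorder a b hab
  let s : (Ix n → ℝ) → Bool := fun v =>
    decide (∃ q ∈ W, 0 < lz q q ∧ lz v q = 0 ∧ lt (cl v) (cl q))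
  have one : ∀ v v', v ∈ W → v' ∈ W → 0 < lz v v → 0 < lz v' v' → lz v v' = 0 →
      lt (cl v) (cl v') → s v ≠ s v' := by
    intro v v' hv hv' pv pv' e hlt
    have h1 : s v = true := decide_eq_true ⟨v', hv', pv', e, hlt⟩
    have h2 : s v' = false := decide_eq_false (by
      rintro ⟨q, hq, pq, e', hlt'⟩
      rw [hcl v q (key v' v q hv' hv hq pv' pv pq ((lz_comm _ _).trans e) e')] at hlt'
      exact asy _ _ hlt hlt')
    rw [h1, h2]
    exact Bool.noConfusion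
  refine laD hd O hO.opn hO.dense (fun v v' => lz v v' = 0) hO.orth B G hB g1 g2 g3 g4 s ?_
  rintro v v' ⟨y, hy, hyB⟩ ⟨z, hz, hzB⟩ e
  have hv := hL v y hy hyB
  have hv' := hL v' z hz hzB
  have pv := hO.pos v ⟨y, hy⟩
  have pv' := hO.pos v' ⟨z, hz⟩
  have hne : cl v ≠ cl v' := fun he => by
    have h1 : v ∈ cl v' := ⟨hv, e⟩
    rw [← he] at h1
    exact pv.ne' h1.2
  rcases tri _ _ hne with h1 | h1
  · exact one v v' hv hv' pv pv' e h1
  · exact (one v' v hv' hv pv' pv ((lz_comm _ _).trans e) h1).symm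

end Pool.Agent.MP_66cee2_co.S3
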