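import Pool.Agent.MP_66cee2_co.S3.Spec

/-
The sphere around the midpoint.
-/

namespace Pool.Agent.MP_66cee2_co.S3

open Set Metric Pool.Agent.MP_66cee2_co.X Pool.Agent.MP_66cee2_co.D
open Pool.Agent.MP_66cee2_co.TR Pool.Agent.MP_66cee2_co.Q
open scoped RealInnerProductSpace

namespace Midx

theorem sq_sub {d : ℕ} (v e : E d) (c : ℝ) (he : ‖e‖ = 1) :
    ‖v - c • e‖ ^ 2 = ‖v‖ ^ 2 - 2 * c * ⟪v, e⟫ + c ^ 2 := by
  rw [norm_sub_sq_real, inner_smul_right, norm_smul, he, Real.norm_eq_abs, mul_one, sq_abs]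
  ring

end Midx

theorem sMid : SMid := by
  intro d a b hab h1
  have h0 : 0 < ‖a - b‖ := norm_pos_iff.2 (sub_ne_zero.2 hab)
  obtain ⟨h, hh⟩ : ∃ h, h = ‖a - b‖ := ⟨_, rfl⟩
  rw [← hh] at h0 h1 ⊢
  have hq : 0 < 1 - h ^ 2 / 4 := by nlinarith
  obtain ⟨ρ, ρ0, ρ2⟩ : ∃ ρ : ℝ, 0 < ρ ∧ ρ ^ 2 = 1 - h ^ 2 / 4 :=
    ⟨√(1 - h ^ 2 / 4), Real.sqrt_pos.2 hq, Real.sq_sqrt hq.le⟩
  have ρ1 : ρ ≤ 1 := by nlinarith
  obtain ⟨e, he⟩ : ∃ e : E d, e = h⁻¹ • (b - a) := ⟨_, rfl⟩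
  have e1 : ‖e‖ = 1 := by
    rw [he, norm_smul, norm_sub_rev, ← hh, Real.norm_eq_abs, abs_of_pos (inv_pos.2 h0),
      inv_mul_cancel₀ h0.ne']
  have e2 : b - a = h • e := by
    rw [he, smul_smul, mul_inv_cancel₀ h0.ne', one_smul]
  obtain ⟨m, hm⟩ : ∃ m : E d, m = (1 / 2 : ℝ) • (a + b) := ⟨_, rfl⟩
  have hb : ∀ y : E d, ‖y - b‖ ^ 2 = ‖y - m‖ ^ 2 - h * ⟪y - m, e⟫ + h ^ 2 / 4 := fun y => by
    have : y - b = (y - m) - (h / 2) • e := by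
      have e3 : (h / 2) • e = (1 / 2 : ℝ) • (b - a) := by
        rw [e2, smul_smul]
        congr 1
        ring
      rw [e3, hm]
      module
    rw [this, Midx.sq_sub _ _ _ e1]
    ring
  have ha : ∀ y : E d, ‖y - a‖ ^ 2 = ‖y - m‖ ^ 2 + h * ⟪y - m, e⟫ + h ^ 2 / 4 := fun y => by
    have : y - a = (y - m) - (-(h / 2)) • e := by
      have e3 : (-(h / 2)) • e = (-(1 / 2) : ℝ) • (b - a) := by
        rw [e2, smul_smul]
        congr 1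
        ring
      rw [e3, hm]
      module
    rw [this, Midx.sq_sub _ _ _ e1]
    ring
  have lt1 : ∀ v : E d, ‖v‖ ^ 2 < 1 → ‖v‖ < 1 := fun v hv => by nlinarith [norm_nonneg v]
  have gt1 : ∀ v : E d, 1 < ‖v‖ ^ 2 → 1 < ‖v‖ := fun v hv => by nlinarith [norm_nonneg v]
  refine ⟨m, e, ρ, e1, ρ0, ρ2, hm, fun y hy hp => ?_, fun y hy hp => ?_,
    min (1 / 1000) (h / 10), lt_min (by norm_num) (by positivity), min_le_left _ _,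
    fun y hy => ?_⟩
  · have := mul_pos h0 hp
    exact ⟨lt1 _ (by rw [hb, hy]; linarith), gt1 _ (by rw [ha, hy]; linarith)⟩
  · have := mul_neg_of_pos_of_neg h0 hp
    exact ⟨lt1 _ (by rw [ha, hy]; linarith), gt1 _ (by rw [hb, hy]; linarith)⟩
  · obtain ⟨c1, c2, c3⟩ := hy
    obtain ⟨η, hη⟩ : ∃ η, η = min (1 / 1000) (h / 10) := ⟨_, rfl⟩
    have η0 : 0 < η := by rw [hη]; exact lt_min (by norm_num) (by positivity)
    have η1 : η ≤ 1 / 1000 := by rw [hη]; exact min_le_left _ _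
    have η2 : η ≤ h / 10 := by rw [hη]; exact min_le_right _ _
    rw [← hη] at c2
    have c4 : 69 / 100 * ρ ≤ ⟪y - m, e⟫ := by linarith
    have c5 : h * (69 / 100 * ρ) ≤ h * ⟪y - m, e⟫ := mul_le_mul_of_nonneg_left c4 h0.le
    have c6 : ρ ^ 2 ≤ ‖y - m‖ ^ 2 := pow_le_pow_left₀ ρ0.le c1 2
    have c7 : ‖y - m‖ ^ 2 ≤ ((1 + η) * ρ) ^ 2 := pow_le_pow_left₀ (norm_nonneg _) c2 2
    have c8 : 0 < h * ρ := mul_pos h0 ρ0
    have c9 : ((1 + η) * ρ) ^ 2 ≤ ρ ^ 2 + 3 / 10 * (h * ρ) := by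
      have k1 : (1 + η) ^ 2 ≤ 1 + 3 / 10 * h := by nlinarith
      have k2 : ρ ^ 2 ≤ ρ := by nlinarith
      have k3 : (1 + η) ^ 2 * ρ ^ 2 ≤ (1 + 3 / 10 * h) * ρ ^ 2 :=
        mul_le_mul_of_nonneg_right k1 (sq_nonneg _)
      have k4 : h * ρ ^ 2 ≤ h * ρ := mul_le_mul_of_nonneg_left k2 h0.le
      rw [mul_pow]
      linarith
    exact ⟨lt1 _ (by rw [hb]; linarith), gt1 _ (by rw [ha]; linarith)⟩

end Pool.Agent.MP_66cee2_co.S3
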