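import Pool.Agent.MP_66cee2_co.Q.Spec

/-
The topological theorem in small dimensions: a better last step, and a fold on a cap.
-/

namespace Pool.Agent.MP_66cee2_co.S3

open Set Metric Module Pool.Agent.MP_66cee2_co.X Pool.Agent.MP_66cee2_co.D
open Pool.Agent.MP_66cee2_co.TR Pool.Agent.MP_66cee2_co.Q
open scoped RealInnerProductSpace

/-- a connected set with a unit pair, all of whose points have a unit neighbour in `B`. -/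
def Lst {d : ℕ} (B : Set (E d)) : Prop :=
  ∃ G : Set (E d), IsPreconnected G ∧ G ⊆ B ∧ (∃ y ∈ G, ∃ z ∈ G, ‖y - z‖ = 1) ∧
    ∀ y ∈ G, ∃ m : E d, ‖m‖ = 1 ∧ y + m ∈ B

/-- row Last: the last step gives three dimensions. -/
def SLast : Prop :=
  ∀ (d n k : ℕ) (O : (Ix n → ℝ) → Set (E d)) (B : Set (E d)) (W : Submodule ℝ (Ix n → ℝ)),
    2 ≤ d → Fam O → IsOpen B → Lab O B W → Su k W → Lst B → k + 1 ≤ n

/-- row HemL: a half circle. -/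
def SHemL : Prop := ∀ (d : ℕ) (B : Set (E d)), Hem B 2 → Lst B

/-- row FoldG: the fold for a general parametrisation. -/
def SFoldG : Prop :=
  ∀ (d n c s : ℕ) (O : (Ix n → ℝ) → Set (E d)) (B : Set (E d)) (W : Submodule ℝ (Ix n → ℝ))
    (F : Submodule ℝ (E d)) (φ : F × ℝ → E d) (T : Set (E d)) (δ : ℝ), Fam O → IsOpen B →
    Lab O B W → Su c W → s ≤ finrank ℝ F → Continuous φ → (∀ p ∈ Cyl F, φ p ∈ T) → T ⊆ B →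
    (∀ p ∈ Cyl F, ∀ q ∈ Cyl F, ‖p.1‖ = 1 → ‖q.1‖ = 1 → ‖φ p - φ q‖ ≤ 1 → 0 < ⟪p.1, q.1⟫) →
    (∀ p ∈ Cyl F, ∀ q ∈ Cyl F, p.2 = 0 → q.2 = 1 → φ p ≠ φ q) → 0 < δ →
    ∃ (W' : Submodule ℝ (Ix n → ℝ)), ∃ a ∈ T, ∃ b ∈ T, a ≠ b ∧ ‖a - b‖ ≤ δ ∧
      Su (c + (s + 1)) W' ∧ Lab O (B ∩ Lune a b) W' ∧ Lab O (B ∩ Lune b a) W'

/-- a thick cap. -/
def CapS {d : ℕ} (m e : E d) (ρ η : ℝ) : Set (E d) :=
  {y | ρ ≤ ‖y - m‖ ∧ ‖y - m‖ ≤ (1 + η) * ρ ∧ 69 / 100 * ‖y - m‖ ≤ ⟪y - m, e⟫}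

/-- row Cap: the parametrisation of the thick cap. -/
def SCap : Prop :=
  ∀ (m e : E 3) (ρ η : ℝ), ‖e‖ = 1 → 0 < ρ → 99 / 100 ≤ ρ ^ 2 → 0 < η →
    ∃ (F : Submodule ℝ (E 3)) (φ : F × ℝ → E 3), 2 ≤ finrank ℝ F ∧ Continuous φ ∧
      (∀ p ∈ Cyl F, φ p ∈ CapS m e ρ η) ∧
      (∀ p ∈ Cyl F, ∀ q ∈ Cyl F, ‖p.1‖ = 1 → ‖q.1‖ = 1 → ‖φ p - φ q‖ ≤ 1 → 0 < ⟪p.1, q.1⟫) ∧
      ∀ p ∈ Cyl F, ∀ q ∈ Cyl F, p.2 = 0 → q.2 = 1 → φ p ≠ φ q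

/-- row Mid: the sphere around the midpoint, and the thick cap in the lune. -/
def SMid : Prop :=
  ∀ (d : ℕ) (a b : E d), a ≠ b → ‖a - b‖ ≤ 1 → ∃ (m e : E d) (ρ : ℝ), ‖e‖ = 1 ∧ 0 < ρ ∧
    ρ ^ 2 = 1 - ‖a - b‖ ^ 2 / 4 ∧ m = (1 / 2 : ℝ) • (a + b) ∧
    (∀ y, ‖y - m‖ = ρ → 0 < ⟪y - m, e⟫ → y ∈ Lune a b) ∧
    (∀ y, ‖y - m‖ = ρ → ⟪y - m, e⟫ < 0 → y ∈ Lune b a) ∧
    ∃ η : ℝ, 0 < η ∧ η ≤ 1 / 1000 ∧ CapS m e ρ η ⊆ Lune a b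

/-- row Turn: a small turn around an axis. -/
def STurn : Prop :=
  ∀ (m e ζ z : E 3) (r : ℝ) (U : Set (E 3)), IsOpen U → z ∈ U → 0 < r → 1 / 2 < r ^ 2 →
    ‖z - m‖ = r → ‖ζ - m‖ = r → ‖z - ζ‖ = 1 → ⟪ζ - m, e⟫ ≠ 0 →
    ∃ y ∈ U, ‖y - m‖ = r ∧ ‖y - ζ‖ = 1 ∧ ⟪y - m, e⟫ ≠ 0

/-- row Arc: an arc on the circle of intersection of the two spheres. -/
def SArc : Prop :=
  ∀ (m m' e e' : E 3) (ρ r : ℝ) (U V : Set (E 3)), IsOpen U → ‖e‖ = 1 → ‖e'‖ = 1 → 0 < ρ →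
    99 / 100 ≤ ρ ^ 2 → ρ ^ 2 ≤ 1 → 0 < r → 999 / 1000 ≤ r ^ 2 → r ^ 2 ≤ 1 →
    99 / 100 ≤ ‖m' - m‖ → ‖m' - m‖ ≤ 101 / 100 → 68 / 100 ≤ ⟪m' - m, e⟫ →
    (∀ y, ‖y - m‖ = ρ → 0 < ⟪y - m, e⟫ → y ∈ U) →
    (∀ y, ‖y - m'‖ = r → ⟪y - m', e'⟫ ≠ 0 → y ∈ V) → Lst (U ∩ V)

/-- dimension three. -/
def ST3 : Prop := ∀ (n : ℕ) (O : (Ix n → ℝ) → Set (E 3)), n ≤ 6 → ¬ Fam O

theorem sT3_of (h0 : STri) (h1 : SIni) (h2 : SLast) (h3 : SFoldG) (h4 : SCap) (h5 : SMid)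
    (h6 : SArc) : ST3 := by
  intro n O hn hO
  obtain ⟨a, b, L, a1, a2, a3, a4⟩ := h0 3 n O (by omega) hO
  obtain ⟨m, e, ρ, e1, ρ0, ρ1, -, m1, -, η, η0, η1, m2⟩ := h5 3 a b a1 (by linarith)
  have n0 := norm_nonneg (a - b)
  have ρ2 : 99 / 100 ≤ ρ ^ 2 := by nlinarith
  have ρ3 : ρ ^ 2 ≤ 1 := by nlinarith
  have ρ4 : 994 / 1000 ≤ ρ := by nlinarith
  have ρ5 : ρ ≤ 1 := by nlinarith
  obtain ⟨F, φ, f1, f2, f3, f4, f5⟩ := h4 m e ρ η e1 ρ0 ρ2 η0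
  obtain ⟨W, a', ha, b', hb, b1, b2, b3, b4, b5⟩ := h3 3 n 3 2 O _ _ F φ _ (1 / 1000) hO
    (isOpen_lune a b) a4 (h1 n 3 L a3) f1 f2 f3 m2 f4 f5 (by norm_num)
  obtain ⟨m', e', r, e2, r0, r1, hm, k1, k2, -⟩ := h5 3 a' b' b1 (by linarith)
  have n1 := norm_nonneg (a' - b')
  have d1 : m' - m = (a' - m) - (1 / 2 : ℝ) • (a' - b') := by
    rw [hm]
    module
  have d2 : ‖(1 / 2 : ℝ) • (a' - b')‖ ≤ 1 / 2000 := by
    rw [norm_smul, Real.norm_eq_abs, abs_of_pos (by norm_num)]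
    linarith
  have d3 := abs_real_inner_le_norm ((1 / 2 : ℝ) • (a' - b')) e
  rw [e1, mul_one] at d3
  have d4 := (abs_le.1 (d3.trans d2)).2
  have d5 := norm_sub_le (a' - m) ((1 / 2 : ℝ) • (a' - b'))
  have d6 := norm_sub_norm_le (a' - m) ((1 / 2 : ℝ) • (a' - b'))
  obtain ⟨c1, c2, c3⟩ := ha
  have c4 : ‖a' - m‖ ≤ 1001 / 1000 := by nlinarith
  have hL : Lst (Lune a b ∩ (Lune a' b' ∪ Lune b' a')) := by
    refine h6 m m' e e' ρ r _ _ (isOpen_lune a b) e1 e2 ρ0 ρ2 ρ3 r0 (by nlinarith) (by nlinarith)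
      ?_ ?_ ?_ m1 fun y h h' => ?_
    · rw [d1]
      linarith
    · rw [d1]
      linarith
    · rw [d1, inner_sub_left]
      linarith
    · rcases lt_or_gt_of_ne h' with h' | h'
      · exact Or.inr (k2 y h h')
      · exact Or.inl (k1 y h h')
  have := h2 3 n _ O _ W (by omega) hO
    ((isOpen_lune a b).inter ((isOpen_lune a' b').union (isOpen_lune b' a')))
    (fun v y hy hB => hB.2.elim (fun h => b4 v y hy ⟨hB.1, h⟩) fun h => b5 v y hy ⟨hB.1, h⟩) b3 hL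
  omega

/-- the topological theorem in the improved range. -/
def STS : Prop :=
  ∀ (d n : ℕ) (O : (Ix n → ℝ) → Set (E d)), 3 ≤ d → n + 3 ≤ 3 * d ∨ 4 * n + 4 ≤ d ^ 2 + 6 * d →
    ¬ Fam O

theorem sTS_of (h0 : STQ) (h2 : SMove) (h3 : SFold) (h4 : SSec) (h5 : SLast) (h6 : SHemL)
    (h7 : ST3) : STS := by
  intro d n O hd hn hO
  have step : ∀ (c s s' : ℕ) (B : Set (E d)) (W : Submodule ℝ (Ix n → ℝ)), 1 ≤ s → IsOpen B →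
      Lab O B W → Su c W → Rdy B s s' → ∃ (B' : Set (E d)) (W' : Submodule ℝ (Ix n → ℝ)),
        IsOpen B' ∧ Lab O B' W' ∧ Su (c + s) W' ∧ Hem B' s' := by
    intro c s s' B W hs hB hL hS ⟨o, u, M, ρ, η, a1, a2, a3, a4, a5, a6⟩
    obtain ⟨W', a, ha, b, hb, ab, b1, b2, b3⟩ :=
      h3 d n c s O B W o u M ρ η hO hB hL hS hs a1 a2 a3 a4 a5
    rcases a6 a ha b hb ab with h | h
    · exact ⟨_, W', hB.inter (isOpen_lune a b), b2, b1, h⟩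
    · exact ⟨_, W', hB.inter (isOpen_lune b a), b3, b1, h⟩
  have main : ∀ (t c : ℕ) (B : Set (E d)) (W : Submodule ℝ (Ix n → ℝ)), IsOpen B → Lab O B W →
      Su c W → Hem B (2 * t + 2) → c + t ^ 2 + 3 * t + 1 ≤ n := by
    intro t
    induction t with
    | zero =>
      intro c B W hB hL hS hH
      have := h5 d n c O B W (by omega) hO hB hL hS (h6 d B hH)
      omega
    | succ t ih =>
      intro c B W hB hL hS hH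
      obtain ⟨B', W', b1, b2, b3, b4⟩ :=
        step c (2 * (t + 1) + 2) _ B W (by omega) hB hL hS (h2.1 d _ B hB hH)
      rw [show 2 * (t + 1) + 2 - 2 = 2 * t + 2 by omega] at b4
      have := ih _ B' W' b1 b2 b3 b4
      nlinarith
  rcases Nat.even_or_odd' d with ⟨k, rfl | rfl⟩
  · obtain ⟨t, rfl⟩ : ∃ t, k = t + 2 := ⟨k - 2, by omega⟩
    obtain ⟨B, W, b1, b2, b3, b4⟩ := h4 _ n O hd hO
    obtain ⟨B', W', c1, c2, c3, c4⟩ := step _ _ _ B W (by omega) b1 b2 b3 (h2.2 _ _ B b1 b4)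
    rw [show 2 * (t + 2) - 1 - 1 = 2 * t + 2 by omega] at c4
    have := main t _ B' W' c1 c2 c3 c4
    rw [show 2 * (t + 2) - 1 = 2 * t + 3 by omega] at this
    rcases hn with hn | hn <;> nlinarith
  · rcases Nat.lt_or_ge k 2 with hk | hk
    · obtain rfl : k = 1 := by omega
      exact h7 n O (by rcases hn with hn | hn <;> omega) hO
    · refine h0 _ n O hd ?_ hO
      rcases hn with hn | hn
      · nlinarith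
      · have e : (2 * k + 1) ^ 2 + 6 * (2 * k + 1) = 4 * (k ^ 2 + 4 * k + 1) + 3 := by ring
        rw [e] at hn ⊢
        omega

end Pool.Agent.MP_66cee2_co.S3
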