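import Pool.Agent.MP_66cee2_co.S3.Spec

namespace Pool.Agent.MP_66cee2_co.S3

open Set Metric Module Pool.Agent.MP_66cee2_co.X
open scoped RealInnerProductSpace

namespace TurnR

theorem cross (a b : E 3) :
    ∃ q : E 3, ⟪q, a⟫ = 0 ∧ ⟪q, b⟫ = 0 ∧ ⟪q, q⟫ = ⟪a, a⟫ * ⟪b, b⟫ - ⟪a, b⟫ ^ 2 := by
  refine ⟨!₂[a 1 * b 2 - a 2 * b 1, a 2 * b 0 - a 0 * b 2, a 0 * b 1 - a 1 * b 0], ?_, ?_, ?_⟩ <;>
    simp [PiLp.inner_apply, Fin.sum_univ_three, -inner_self_eq_norm_sq_to_K] <;> ring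

theorem rot {N w q : E 3} {R s k a b : ℝ} (hN : ⟪N, N⟫ = R) (hw : ⟪w, w⟫ = R)
    (hs : ⟪N, w⟫ = s) (q1 : ⟪q, N⟫ = 0) (q2 : ⟪q, w⟫ = 0) (q3 : ⟪q, q⟫ = R - k * s)
    (hk : k * R = s) (hab : a ^ 2 + b ^ 2 = 1) (v : E 3)
    (hv : v = k • N + a • (w - k • N) + b • q) : ⟪v, v⟫ = R ∧ ⟪v, N⟫ = s := by
  have s' : ⟪w, N⟫ = s := by rw [real_inner_comm, hs]
  have q1' : ⟪N, q⟫ = 0 := by rw [real_inner_comm, q1]
  have q2' : ⟪w, q⟫ = 0 := by rw [real_inner_comm, q2]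
  subst hv
  simp only [inner_add_left, inner_add_right, inner_sub_left, inner_sub_right,
    real_inner_smul_left, real_inner_smul_right, hN, hw, hs, s', q1, q2, q3, q1', q2']
  constructor
  · linear_combination (R - k * s) * hab + k * (1 - a) ^ 2 * hk
  · linear_combination (1 - a) * hk

end TurnR

theorem sTurn : STurn := by
  intro m e ζ z r U hU hz r0 r1 h1 h2 h3 h4
  by_cases h5 : ⟪z - m, e⟫ ≠ 0
  · exact ⟨z, hz, h1, h3, h5⟩
  rw [not_not] at h5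
  obtain ⟨q0, q1, q2, q3⟩ := TurnR.cross (ζ - m) (z - m)
  obtain ⟨N, hN'⟩ : ∃ N, N = ζ - m := ⟨_, rfl⟩
  obtain ⟨w, hw'⟩ : ∃ w, w = z - m := ⟨_, rfl⟩
  have h3' : ‖w - N‖ = 1 := by rw [hN', hw', sub_sub_sub_cancel_right, h3]
  rw [← hN'] at h2 h4 q1 q3
  rw [← hw'] at h1 h5 q2 q3
  have hN : ⟪N, N⟫ = r ^ 2 := by rw [real_inner_self_eq_norm_sq, h2]
  have hw : ⟪w, w⟫ = r ^ 2 := by rw [real_inner_self_eq_norm_sq, h1]
  have hs : ⟪N, w⟫ = r ^ 2 - 1 / 2 := by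
    have := norm_sub_sq_real w N
    rw [h3', h1, h2, real_inner_comm] at this
    linarith
  obtain ⟨k, hk'⟩ : ∃ k, k = (r ^ 2 - 1 / 2) / r ^ 2 := ⟨_, rfl⟩
  have hk : k * r ^ 2 = r ^ 2 - 1 / 2 := by rw [hk']; field_simp
  have k0 : 0 < k := by rw [hk']; exact div_pos (by linarith) (by positivity)
  let q : E 3 := r⁻¹ • q0
  have p1 : ⟪q, N⟫ = 0 := by rw [real_inner_smul_left, q1, mul_zero]
  have p2 : ⟪q, w⟫ = 0 := by rw [real_inner_smul_left, q2, mul_zero]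
  have p3 : ⟪q, q⟫ = r ^ 2 - k * (r ^ 2 - 1 / 2) := by
    rw [real_inner_smul_left, real_inner_smul_right, q3, hN, hw, hs, hk']
    field_simp
  let v : ℝ → E 3 := fun f => k • N + Real.cos f • (w - k • N) + Real.sin f • q
  have hc : Continuous fun f => m + v f := by fun_prop
  have v0 : m + v 0 = z := by simp [v, hw']
  obtain ⟨ε, ε0, hε⟩ := Metric.isOpen_iff.1 (hU.preimage hc) 0 (by rw [mem_preimage, v0]; exact hz)
  have good : ∀ f, |f| < ε → ⟪v f, e⟫ ≠ 0 →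
      ∃ y ∈ U, ‖y - m‖ = r ∧ ‖y - ζ‖ = 1 ∧ ⟪y - m, e⟫ ≠ 0 := fun f hf he => by
    obtain ⟨a1, a2⟩ := TurnR.rot hN hw hs p1 p2 p3 hk (Real.cos_sq_add_sin_sq f) (v f) rfl
    rw [real_inner_self_eq_norm_sq] at a1
    refine ⟨m + v f, hε (by simpa using hf), ?_, ?_, ?_⟩
    · rw [add_sub_cancel_left]
      exact (sq_eq_sq₀ (norm_nonneg _) r0.le).1 a1
    · have e1 : m + v f - ζ = v f - N := by rw [hN']; abel
      have := norm_sub_sq_real (v f) N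
      rw [a1, a2, h2] at this
      rw [e1]
      exact (sq_eq_sq₀ (norm_nonneg _) zero_le_one).1 (by linarith)
    · rwa [add_sub_cancel_left]
  obtain ⟨f, f0, f1, f2⟩ : ∃ f : ℝ, 0 < f ∧ f < ε ∧ f ≤ 1 :=
    ⟨min (ε / 2) 1, by positivity, (min_le_left _ _).trans_lt (by linarith), min_le_right _ _⟩
  have c1 : Real.cos f ≠ 1 := fun h => f0.ne' ((Real.cos_eq_one_iff_of_lt_of_lt
    (by linarith [Real.pi_gt_three]) (by linarith [Real.pi_gt_three])).1 h)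
  by_cases g1 : ⟪v f, e⟫ ≠ 0
  · exact good f (by rwa [abs_of_pos f0]) g1
  refine good (-f) (by rwa [abs_neg, abs_of_pos f0]) fun g2 => ?_
  rw [not_not] at g1
  simp only [v, inner_add_left, inner_sub_left, real_inner_smul_left, h5, Real.cos_neg,
    Real.sin_neg] at g1 g2
  have : (1 - Real.cos f) * (k * ⟪N, e⟫) = 0 := by linear_combination (g1 + g2) / 2
  exact mul_ne_zero (sub_ne_zero.2 c1.symm) (mul_ne_zero k0.ne' h4) this

end Pool.Agent.MP_66cee2_co.S3
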